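import Pool.Agent.Run7.h568.MC.Iface2
import Pool.Agent.H815.HF.InvDom

/-!
# Piece IOD: invariance of domain in finite-dimensional normed spaces
-/

set_option autoImplicit false

namespace Run7.h688.MC

open Run7.h568.MC Topology Metric Set

universe v

theorem iod : S_IOD.{v} := by
  intro E _ _ _ U f hU hf hi x hx
  obtain ⟨e, -⟩ : ∃ e : E ≃L[ℝ] EuclideanSpace ℝ (Fin (Module.finrank ℝ E)), e = toEuclidean :=
    ⟨toEuclidean, rfl⟩
  have hU' : e.symm ⁻¹' U ∈ 𝓝 (e x) := by
    apply (e.symm.continuous.continuousAt).preimage_mem_nhds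
    rw [e.symm_apply_apply]
    exact hU.mem_nhds hx
  obtain ⟨r, hr, hb⟩ := Metric.nhds_basis_closedBall.mem_iff.1 hU'
  have h1 := Pool.Agent.H815.HF.InvDom.image_mem_nhds (fun y => e (f (e.symm y))) (e x) r hr
    (e.continuous.comp_continuousOn (hf.comp e.symm.continuous.continuousOn (fun y hy => hb hy)))
    (fun a ha b hb' hab => e.symm.injective (hi (hb ha) (hb hb') (e.injective hab)))
  rw [e.symm_apply_apply] at h1
  have h2 : e ⁻¹' ((fun y => e (f (e.symm y))) '' closedBall (e x) r) ∈ 𝓝 (f x) :=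
    e.continuous.continuousAt.preimage_mem_nhds h1
  refine Filter.mem_of_superset h2 ?_
  rintro y ⟨z, hz, hzy⟩
  exact ⟨e.symm z, hb hz, e.injective hzy⟩

end Run7.h688.MC
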