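import Pool.Agent.Run7.h688.MC.PROP2

/-!
# Piece PROP: properness of the length of `Σ a α + Σ b β`
-/

set_option autoImplicit false
set_option linter.unusedSectionVars false

namespace Run7.h688.MC

open Real Run7.h568.MC Run7.h568.MC.Pattern Filter Topology

universe u

variable {V : Type u} [Fintype V] {P : Pattern V}

/-- every component of `α` meets a component of `β` of nonzero weight -/
theorem fills_alpha {b : V → ℝ} (hb : b ∈ Inv P) (hF : Fills P b) (p : V) :
    ∃ n : ℕ, b (P.A^[n] p) ≠ 0 := by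
  by_contra hc
  push Not at hc
  obtain ⟨q, hq, hq2⟩ := hF {q | ∃ n : ℕ, q = P.A^[n] p ∨ q = P.kap (P.A^[n] p)}
    ⟨p, 0, Or.inl rfl⟩ (by
      rintro q ⟨n, rfl | rfl⟩
      · exact ⟨hc n, n, Or.inr rfl⟩
      · refine ⟨?_, n, Or.inl (P.kap_kap _)⟩
        rw [inv_kap hb]
        exact hc n)
  obtain ⟨n, rfl | rfl⟩ := hq
  · have e : P.tau (P.A^[n] p) = P.kap (P.A^[n + 1] p) := by
      rw [Function.iterate_succ_apply']
      exact (P.kap_A _).symm
    have := hq2 1 ⟨n + 1, Or.inr e⟩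
    exact P.tau_ne _ this
  · obtain ⟨N, hN, hA⟩ : ∃ N : ℕ, 0 < N ∧ P.A^[N] p = p :=
      ⟨_, Run7.h467.MC.perV_pos (V := V), Run7.h467.MC.A_per p⟩
    obtain ⟨M, hM, hT⟩ : ∃ M : ℕ, 0 < M ∧ ∀ x, P.tau^[M] x = x :=
      ⟨(Fintype.card V).factorial, Nat.factorial_pos _,
        fun x => Run7.h467.MC.iterate_fact P.tau P.tau_bij x⟩
    obtain ⟨k, rfl⟩ : ∃ k, N = k + 1 := ⟨N - 1, by omega⟩
    obtain ⟨j, rfl⟩ : ∃ j, M = j + 1 := ⟨M - 1, by omega⟩
    obtain ⟨x, hx⟩ : ∃ x, x = P.A^[n + k] p := ⟨_, rfl⟩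
    have e1 : P.tau x = P.kap (P.A^[n] p) := by
      rw [← P.kap_A, hx, ← Function.iterate_succ_apply' P.A]
      change P.kap (P.A^[n + (k + 1)] p) = _
      rw [Function.iterate_add_apply, hA]
    have e2 : P.tau^[j] (P.kap (P.A^[n] p)) = x := by
      rw [← e1, ← Function.iterate_succ_apply]
      exact hT x
    have := hq2 j (by rw [e2]; exact ⟨n + k, Or.inl hx⟩)
    rw [e2, ← e1] at this
    exact P.tau_ne x this.symm

/-! ### Bounded functions on a set of metrics -/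

/-- `f` is bounded on the metrics satisfying `S` -/
def Bd (S : HypMetric P → Prop) (f : HypMetric P → ℝ) : Prop := ∃ C : ℝ, ∀ m, S m → |f m| ≤ C

theorem Bd.add {S : HypMetric P → Prop} {f g : HypMetric P → ℝ} (hf : Bd S f) (hg : Bd S g) :
    Bd S fun m => f m + g m := by
  obtain ⟨C, hC⟩ := hf
  obtain ⟨D, hD⟩ := hg
  exact ⟨C + D, fun m hm => (abs_add_le _ _).trans (add_le_add (hC m hm) (hD m hm))⟩

theorem Bd.neg {S : HypMetric P → Prop} {f : HypMetric P → ℝ} (hf : Bd S f) :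
    Bd S fun m => -f m := by
  obtain ⟨C, hC⟩ := hf
  exact ⟨C, fun m hm => by rw [abs_neg]; exact hC m hm⟩

theorem Bd.congr {S : HypMetric P → Prop} {f g : HypMetric P → ℝ} (hf : Bd S f)
    (h : ∀ m, f m = g m) : Bd S g := by
  obtain ⟨C, hC⟩ := hf
  exact ⟨C, fun m hm => by rw [← h]; exact hC m hm⟩

theorem Bd.sub {S : HypMetric P → Prop} {f g : HypMetric P → ℝ} (hf : Bd S f) (hg : Bd S g) :
    Bd S fun m => f m - g m := (hf.add hg.neg).congr fun m => by ring

theorem Bd.log {S : HypMetric P → Prop} {f : HypMetric P → ℝ} {c C : ℝ} (hc : 0 < c)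
    (h1 : ∀ m, S m → c ≤ f m) (h2 : ∀ m, S m → f m ≤ C) : Bd S fun m => Real.log (f m) := by
  refine ⟨|Real.log c| + |Real.log C|, fun m hm => ?_⟩
  have k1 := Real.log_le_log hc (h1 m hm)
  have k2 := Real.log_le_log (lt_of_lt_of_le hc (h1 m hm)) (h2 m hm)
  rw [abs_le]
  have a1 := neg_abs_le (Real.log c)
  have a2 := le_abs_self (Real.log C)
  have a3 := abs_nonneg (Real.log c)
  have a4 := abs_nonneg (Real.log C)
  constructor <;> linarith

theorem one_sub_bounds {x δ M : ℝ} (hδ : 0 < δ) (h1 : δ ≤ x - 1) (h2 : x ≤ M) :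
    δ / M ≤ 1 - 1 / x ∧ 1 - 1 / x ≤ 1 := by
  have hx : 0 < x := by linarith
  have hM : 0 < M := by linarith
  have e : 1 - 1 / x = (x - 1) / x := by field_simp
  constructor
  · rw [e, div_le_div_iff₀ hM hx]
    exact mul_le_mul h1 h2 hx.le (by linarith)
  · have : 0 < 1 / x := by positivity
    linarith

section bounds

variable {m : HypMetric P} {ε M : ℝ}

theorem mu_lower (hM : ∀ z, m.muZ z ≤ M) (hL : ∀ p, ε ≤ m.Lam p) (hε : 0 < ε) {z : P.Z}
    (hz : Zh z) : ε / M ≤ m.muZ z - 1 := by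
  have g0 := (gz m).muZ_gt z hz
  have hM1 : 1 ≤ M := by linarith [hM z]
  have hM0 : 0 < M := by linarith
  rcases z with p | p
  · have h1 : Zh (Zt (Sum.inl p : P.Z)) := (Zh_Zt _).2 hz
    have h2 : Zh (Zt (Zt (Sum.inl p : P.Z))) := (Zh_Zt _).2 h1
    have e := LamZ_Zt m h2
    rw [Zt3 hz] at e
    have e' : m.Lam p = m.LamZ (Sum.inl p) := rfl
    have g2 := (gz m).muZ_gt _ h2
    have hx : 0 < m.muZ (Zt (Zt (Sum.inl p : P.Z))) := by linarith
    have i1 : 1 - 1 / m.muZ (Zt (Zt (Sum.inl p : P.Z))) ≤ 1 := by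
      have : 0 < 1 / m.muZ (Zt (Zt (Sum.inl p : P.Z))) := by positivity
      linarith
    have i2 := mul_le_mul_of_nonneg_right i1
      (show 0 ≤ m.muZ (Sum.inl p : P.Z) - 1 by linarith)
    have i3 : ε ≤ m.muZ (Sum.inl p : P.Z) - 1 := by
      have := hL p
      rw [e', e] at this
      linarith
    refine le_trans ?_ i3
    exact div_le_self hε.le hM1
  · have e := LamZ_Zt m hz
    rw [Zt_inr] at e
    have e' : m.Lam (P.tau p) = m.LamZ (Sum.inl (P.tau p)) := rfl
    have i0 := hL (P.tau p)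
    rw [e', e] at i0
    have hx : 0 < m.muZ (Sum.inr p : P.Z) := by linarith
    have i1 : 0 ≤ 1 - 1 / m.muZ (Sum.inr p : P.Z) := by
      rw [sub_nonneg, div_le_one hx]
      exact g0.le
    have i2 : (1 - 1 / m.muZ (Sum.inr p : P.Z)) * (m.muZ (Sum.inl (P.tau p) : P.Z) - 1) ≤
        (1 - 1 / m.muZ (Sum.inr p : P.Z)) * M :=
      mul_le_mul_of_nonneg_left (by linarith [hM (Sum.inl (P.tau p) : P.Z)]) i1
    have i3 : ε / M ≤ 1 - 1 / m.muZ (Sum.inr p : P.Z) := by
      rw [div_le_iff₀ hM0]; linarith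
    refine i3.trans ?_
    have i4 : 0 ≤ (m.muZ (Sum.inr p : P.Z) - 1) ^ 2 / m.muZ (Sum.inr p : P.Z) := by positivity
    have i5 : (m.muZ (Sum.inr p : P.Z) - 1) ^ 2 / m.muZ (Sum.inr p : P.Z) =
        (m.muZ (Sum.inr p : P.Z) - 1) - (1 - 1 / m.muZ (Sum.inr p : P.Z)) := by
      field_simp
    linarith

theorem LamZ_lower {δ : ℝ} (hM : ∀ z, m.muZ z ≤ M) (hδ : 0 < δ)
    (hμ : ∀ z : P.Z, Zh z → δ ≤ m.muZ z - 1) {z : P.Z} (hz : Zh z) :
    δ / M * δ ≤ m.LamZ z ∧ m.LamZ z ≤ M := by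
  have h1 : Zh (Zt z) := (Zh_Zt _).2 hz
  have h2 : Zh (Zt (Zt z)) := (Zh_Zt _).2 h1
  have e := LamZ_Zt m h2
  rw [Zt3 hz] at e
  have g1 := one_sub_bounds hδ (hμ _ h2) (hM _)
  have g2 := hμ z hz
  have g3 := hM z
  have g4 := (gz m).muZ_gt z hz
  have hM0 : 0 < M := by linarith
  have g5 : 0 < δ / M := by positivity
  rw [e]
  constructor
  · exact mul_le_mul g1.1 g2 hδ.le (by linarith)
  · have := mul_le_mul g1.2 (show m.muZ z - 1 ≤ M by linarith) (by linarith) zero_le_one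
    linarith

theorem LamZ_bound {c : ℝ} (h : ∀ z : P.Z, Zh z → c ≤ m.LamZ z ∧ m.LamZ z ≤ M) (z : P.Z) :
    c ≤ m.LamZ z ∧ m.LamZ z ≤ M := by
  obtain ⟨n, -, hn⟩ := Run7.h467.MC.exists_Zh z
  induction n generalizing z with
  | zero => exact h z hn
  | succ n ih =>
    by_cases hz : Zh z
    · exact h z hz
    · rw [← (gz m).LamZ_quad z hz]
      exact ih (ZA z) hn

theorem mu_bounds (hM : ∀ z, m.muZ z ≤ M) (p : V) : 1 ≤ m.mu p ∧ m.mu p ≤ M ^ 2 := by
  have hM1 : 1 ≤ M := (muZ_ge m (Sum.inl p)).trans (hM _)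
  refine ⟨(gf m).mu_ge p, ?_⟩
  by_cases hd : P.Diag p
  · rw [← (gz m).mu_split p hd, sq]
    exact mul_le_mul (hM _) (hM _) (by linarith [muZ_ge m (Sum.inr ⟨p, hd⟩)]) (by linarith)
  · have e : m.muZ (Sum.inl p) = m.mu p := if_neg hd
    have := hM (Sum.inl p)
    rw [e] at this
    nlinarith

end bounds

/-- the theorem on `cyc` for metrics -/
theorem cyc_lin (m : HypMetric P) (z : P.Z) : cyc P m.lin z =
    -∑ i ∈ Finset.range (per P), (if Zh (ZA^[i] z) then Real.log (m.muZ (ZA^[i] z)) else 0) := by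
  have hz := gz m
  have h1 : ∀ y : P.Z, (if Zh y then m.lZ (ZA y) else 0) =
      (m.U (ZA y) - m.U y) - (if Zh y then Real.log (m.muZ y) else 0) := by
    intro y
    by_cases h : Zh y
    · rw [if_pos h, if_pos h, log_muZ hz h, U_ZA hz h]
      ring
    · rw [if_neg h, if_neg h, U_ZA_not h]
      ring
  have h2 : cyc P m.lin z = ∑ i ∈ Finset.range (per P), ((m.U (ZA^[i + 1] z) - m.U (ZA^[i] z)) -
      (if Zh (ZA^[i] z) then Real.log (m.muZ (ZA^[i] z)) else 0)) := by
    unfold cyc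
    refine Finset.sum_congr rfl fun i _ => ?_
    have := h1 (ZA^[i] z)
    rw [← Function.iterate_succ_apply' ZA i z] at this
    exact this
  rw [h2, Finset.sum_sub_distrib,
    Run7.h467.MC.sum_cycle ZA (per P) m.U z (Run7.h467.MC.ZA_per z), zero_sub]

theorem cyc_le {m : HypMetric P} {δ : ℝ} (hδ : 0 < δ)
    (hμ : ∀ z : P.Z, Zh z → δ ≤ m.muZ z - 1) (z : P.Z) :
    cyc P m.lin z ≤ -Real.log (1 + δ) := by
  rw [cyc_lin, neg_le_neg_iff]
  obtain ⟨i, hi, hzi⟩ := Run7.h467.MC.exists_Zh z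
  have h1 : (if Zh (ZA^[i] z) then Real.log (m.muZ (ZA^[i] z)) else 0) ≤
      ∑ i ∈ Finset.range (per P), (if Zh (ZA^[i] z) then Real.log (m.muZ (ZA^[i] z)) else 0) := by
    refine Finset.single_le_sum
      (f := fun i => if Zh (ZA^[i] z) then Real.log (m.muZ (ZA^[i] z)) else 0) (fun j _ => ?_)
      (Finset.mem_range.2 hi)
    change 0 ≤ (if Zh (ZA^[j] z) then Real.log (m.muZ (ZA^[j] z)) else 0)
    split_ifs
    · exact Real.log_nonneg (muZ_ge m _)
    · exact le_refl _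
  rw [if_pos hzi] at h1
  refine le_trans ?_ h1
  exact Real.log_le_log (by linarith) (by linarith [hμ _ hzi])

theorem continuous_cyc (z : P.Z) : Continuous fun v : P.W => cyc P v z := by
  unfold cyc
  refine continuous_finsetSum _ fun i _ => ?_
  split_ifs
  · exact (continuous_apply _).comp continuous_fst
  · exact continuous_const

/-- bounded coordinates and uniformly negative cycles: a compact subset of `Dom` -/
theorem compact_of {S : HypMetric P → Prop} {c : ℝ} (hc : 0 < c)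
    (h1 : ∀ z, Bd S fun m => m.lZ z) (h2 : ∀ p, Bd S fun m => m.w p)
    (h3 : ∀ m, S m → ∀ z, cyc P m.lin z ≤ -c) :
    ∃ C : Set P.W, IsCompact C ∧ C ⊆ Dom P ∧ ∀ m : HypMetric P, S m → m.lin ∈ C := by
  choose A hA using h1
  choose B hB using h2
  obtain ⟨R, hR⟩ : ∃ R : ℝ, R = (∑ z, |A z|) + ∑ p, |B p| := ⟨_, rfl⟩
  have hA0 : 0 ≤ ∑ z, |A z| := Finset.sum_nonneg fun z _ => abs_nonneg _
  have hB0 : 0 ≤ ∑ p, |B p| := Finset.sum_nonneg fun z _ => abs_nonneg _
  have hR0 : 0 ≤ R := by linarith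
  refine ⟨Metric.closedBall 0 R ∩ ⋂ z : P.Z, {v | cyc P v z ≤ -c}, ?_, ?_, ?_⟩
  · refine (isCompact_closedBall _ _).inter_right (isClosed_iInter fun z => ?_)
    exact isClosed_le (continuous_cyc z) continuous_const
  · rintro v ⟨-, hv⟩ z
    have := Set.mem_iInter.1 hv z
    rw [Set.mem_ofPred_eq] at this
    linarith
  · intro m hm
    refine ⟨?_, ?_⟩
    · rw [mem_closedBall_zero_iff]
      refine (norm_prod_le_iff).2 ⟨?_, ?_⟩
      · rw [pi_norm_le_iff_of_nonneg hR0]
        intro z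
        rw [Real.norm_eq_abs]
        have := hA z m hm
        have k : |A z| ≤ ∑ z, |A z| :=
          Finset.single_le_sum (f := fun z => |A z|) (fun z _ => abs_nonneg _) (Finset.mem_univ z)
        have l := le_abs_self (A z)
        change |m.lZ z| ≤ R
        linarith
      · rw [pi_norm_le_iff_of_nonneg hR0]
        intro p
        rw [Real.norm_eq_abs]
        have := hB p m hm
        have k : |B p| ≤ ∑ p, |B p| :=
          Finset.single_le_sum (f := fun p => |B p|) (fun z _ => abs_nonneg _) (Finset.mem_univ p)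
        have l := le_abs_self (B p)
        change |m.w p| ≤ R
        linarith
    · exact Set.mem_iInter.2 fun z => h3 m hm z

/-- piece PROP -/
theorem prop (P : Pattern V) : S_PROP P := by
  intro a b ha _ haA hb hb0 hF K
  obtain ⟨M, hMdef⟩ : ∃ M : ℝ, M = 1 + ∑ z : P.Z, Real.exp (K / a (Zb z)) := ⟨_, rfl⟩
  have hMM : ∀ m : HypMetric P, Short a b K m → ∀ z, m.muZ z ≤ M := fun m hm z => by
    rw [hMdef]; exact short_mu ha haA hb0 hm z
  have hM1 : 1 ≤ M := by
    have : 0 ≤ ∑ z : P.Z, Real.exp (K / a (Zb z)) := Finset.sum_nonneg fun z _ => (Real.exp_pos _).le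
    linarith
  have hM0 : 0 < M := by linarith
  clear hMdef
  obtain ⟨ε, hε, hL⟩ := short_Lam K ha haA hb hb0 hF
  obtain ⟨δ, hδd⟩ : ∃ δ : ℝ, δ = ε / M := ⟨_, rfl⟩
  have hδ : 0 < δ := by rw [hδd]; positivity
  have hμ : ∀ m : HypMetric P, Short a b K m → ∀ z : P.Z, Zh z → δ ≤ m.muZ z - 1 :=
    fun m hm z hz => by rw [hδd]; exact mu_lower (hMM m hm) (hL m hm) hε hz
  have hLZ : ∀ m : HypMetric P, Short a b K m → ∀ z : P.Z,
      δ / M * δ ≤ m.LamZ z ∧ m.LamZ z ≤ M := fun m hm z =>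
    LamZ_bound (fun z hz => LamZ_lower (hMM m hm) hδ (hμ m hm) hz) z
  have c0 : 0 < δ / M * δ := by positivity
  -- U
  have bU0 : ∀ z : P.Z, Zh z → Bd (Short (P := P) a b K) fun m => Real.log (m.muZ z - 1) :=
    fun z hz => Bd.log (C := M) hδ (fun m hm => hμ m hm z hz)
      (fun m hm => by linarith [hMM m hm z])
  have bU : ∀ z : P.Z, Bd (Short (P := P) a b K) fun m => m.U z := by
    intro z
    rcases z with p | p
    · exact (bU0 (Sum.inl (P.top p)) (P.not_quad_top p)).neg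
    · exact (bU0 (Sum.inr p) trivial).neg
  have bL : ∀ z : P.Z, Bd (Short (P := P) a b K) fun m => Real.log (m.LamZ z) :=
    fun z => Bd.log c0 (fun m hm => (hLZ m hm z).1) (fun m hm => (hLZ m hm z).2)
  have blZ : ∀ z : P.Z, Bd (Short (P := P) a b K) fun m => m.lZ z :=
    fun z => ((bL z).add (bU z)).add (bU (Zk z))
  -- The
  have bmu : ∀ p : V, Bd (Short (P := P) a b K) fun m => Real.log (m.mu p) :=
    fun p => Bd.log one_pos (fun m hm => (mu_bounds (hMM m hm) p).1)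
      (fun m hm => (mu_bounds (hMM m hm) p).2)
  have bT0 : ∀ p : V, b p ≠ 0 → Bd (Short (P := P) a b K) fun m => Real.log (m.The p) := by
    intro p hp
    have hp2 : b (P.rho p) ≠ 0 := by rw [hb.1]; exact hp
    have hp3 : b (P.kap (P.rho p)) ≠ 0 := by rw [inv_kap hb]; exact hp2
    refine Bd.log (c := 1 * Real.exp (-(K / b (P.rho p))))
      (C := (1 + M) * (M / Real.exp (-(K / b (P.kap (P.rho p)))))) (by positivity)
      (fun m hm => ?_) (fun m hm => ?_)
    · have h1 := (gf m).RR_gt p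
      have h2 := (short_RS ha haA hb hb0 hm hp2).2
      exact mul_le_mul h1.le h2 (Real.exp_pos _).le (by linarith)
    · have h1 := (gf m).RR_gt p
      have h2 := (gf m).SS_pos (P.kap p)
      have h3 := (hLZ m hm (Sum.inl p)).2
      have h4 : m.LamZ (Sum.inl p) = (m.RR p - 1) * (m.SS (P.kap p) + 1) := rfl
      have h5 : m.RR p ≤ 1 + M := by
        have : (m.RR p - 1) * 1 ≤ (m.RR p - 1) * (m.SS (P.kap p) + 1) :=
          mul_le_mul_of_nonneg_left (by linarith) (by linarith)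
        linarith
      have k1 := (short_RS ha haA hb hb0 hm hp3).1
      have k2 := (gf m).SS_pos (P.rho p)
      have k3 := (hLZ m hm (Sum.inl (P.kap (P.rho p)))).2
      have k4 : m.LamZ (Sum.inl (P.kap (P.rho p))) =
        (m.RR (P.kap (P.rho p)) - 1) * (m.SS (P.kap (P.kap (P.rho p))) + 1) := rfl
      rw [P.kap_kap] at k4
      have k5 : m.SS (P.rho p) ≤ M / Real.exp (-(K / b (P.kap (P.rho p)))) := by
        rw [le_div_iff₀ (Real.exp_pos _)]
        have : Real.exp (-(K / b (P.kap (P.rho p)))) * (m.SS (P.rho p) + 1) ≤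
            (m.RR (P.kap (P.rho p)) - 1) * (m.SS (P.rho p) + 1) :=
          mul_le_mul_of_nonneg_right k1 (by linarith)
        have e0 := Real.exp_pos (-(K / b (P.kap (P.rho p))))
        nlinarith
      exact mul_le_mul h5 k5 k2.le (by linarith)
  have bT1 : ∀ p : V, Bd (Short (P := P) a b K) (fun m => Real.log (m.The (P.A p))) →
      Bd (Short (P := P) a b K) fun m => Real.log (m.The p) := by
    intro p hp
    refine ((hp.add (bmu p)).sub (bmu (P.iota p))).congr fun m => ?_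
    have hg := gf m
    have h1 := hg.The_A p
    have h2 : Real.log (m.The (P.A p)) + Real.log (m.mu p) =
        Real.log (m.The p) + Real.log (m.mu (P.iota p)) := by
      rw [← Real.log_mul (The_pos hg _).ne' (mu_pos hg _).ne', h1,
        Real.log_mul (The_pos hg _).ne' (mu_pos hg _).ne']
    linarith
  have bT : ∀ (n : ℕ) (p : V), b (P.A^[n] p) ≠ 0 →
      Bd (Short (P := P) a b K) fun m => Real.log (m.The p) := by
    intro n
    induction n with
    | zero => exact fun p hp => bT0 p hp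
    | succ n ih => exact fun p hp => bT1 p (ih (P.A p) hp)
  have bw : ∀ p : V, Bd (Short (P := P) a b K) fun m => m.w p := by
    intro p
    obtain ⟨n, hn⟩ := fills_alpha hb hF p
    exact ((bT n p hn).add (bU (Sum.inl p))).add (bU (Sum.inl (P.rho p)))
  exact compact_of (Real.log_pos (show 1 < 1 + δ by linarith)) blZ bw
    (fun m hm z => cyc_le hδ (hμ m hm) z)

end Run7.h688.MC
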