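import Pool.Agent.Run7.h568.MC.Iface2
import Pool.Agent.Run7.h568.MC.LIN1
import Pool.Agent.Run7.h568.MC.Gb
import Pool.Agent.Run7.h568.MC.KfBox

/-!
# Piece PROP, first part: the length of `α` and lower bounds
-/

set_option autoImplicit false
set_option linter.unusedSectionVars false

namespace Run7.h688.MC

open Real Run7.h568.MC Run7.h568.MC.Pattern Filter Topology

universe u

variable {V : Type u} [Fintype V] {P : Pattern V}

theorem gf (m : HypMetric P) : GF m := GA P m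

theorem gz (m : HypMetric P) : GFZ m := gb P m (GA P m)

theorem Zb_ZA {a : V → ℝ} (haA : ∀ p, a (P.A p) = a p) (z : P.Z) : a (Zb (ZA z)) = a (Zb z) := by
  rcases z with p | p
  · by_cases h : P.Diag p
    · rw [ZA_inl_diag h]; rfl
    · rw [ZA_inl_not h]; exact haA p
  · rw [ZA_inr]; exact haA p

/-- the length of `Σ a α` -/
theorem La_eq (m : HypMetric P) {a : V → ℝ} (haA : ∀ p, a (P.A p) = a p) :
    Om (0, a) m.lin = ∑ z : P.Z, if Zh z then a (Zb z) * Real.log (m.muZ z) else 0 := by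
  have hz := gz m
  have e : ∀ z : P.Z, (if Zh z then
      ((0, a) : P.W).1 (ZA z) * wZ m.lin z - m.lin.1 (ZA z) * wZ ((0, a) : P.W) z else 0) =
      (a (Zb z) * m.U z - a (Zb (ZA z)) * m.U (ZA z)) +
        (if Zh z then a (Zb z) * Real.log (m.muZ z) else 0) := by
    intro z
    have hw : wZ ((0, a) : P.W) z = a (Zb z) := by
      rcases z with p | p
      · rfl
      · change a p + 0 = a p
        rw [add_zero]
    rw [Zb_ZA haA]
    split_ifs with h
    · have h1 := U_ZA hz h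
      have h2 := log_muZ hz h
      have h3 : m.lin.1 (ZA z) = m.lZ (ZA z) := rfl
      have h4 : ((0, a) : P.W).1 (ZA z) = 0 := rfl
      rw [hw, h3, h4, h2, h1]
      ring
    · rw [U_ZA_not h]; ring
  unfold Om
  rw [Finset.sum_congr rfl fun z _ => e z, Finset.sum_add_distrib, Finset.sum_sub_distrib,
    sum_ZA (fun z => a (Zb z) * m.U z), sub_self, zero_add]

/-- `Λ ≥ 4 e^{-y}` -/
theorem Lam_ge (m : HypMetric P) (p : V) : 4 * Real.exp (-(m.y (P.rho p))) ≤ m.Lam p := by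
  have hg := gf m
  have h0 := hg.E_pos p
  have h1 := hg.E_lt p
  have h2 := hg.E_lt (P.kap p)
  rw [hg.E_kap] at h2
  have t1 := hg.t_pos p
  have t2 := hg.t_pos (P.kap p)
  rw [m.Lam_eq]
  have hd : 0 < (m.TT p - m.EE p) * (m.TT (P.kap p) - m.EE p) :=
    mul_pos (by linarith) (by linarith)
  rw [le_div_iff₀ hd]
  have e1 : (m.TT p - m.EE p) * (m.TT (P.kap p) - m.EE p) ≤ m.TT p * m.TT (P.kap p) :=
    mul_le_mul (by linarith) (by linarith) (by linarith) (by linarith)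
  have hy := Real.exp_pos (-(m.y (P.rho p)))
  have eE : m.EE p = Real.exp (-(m.y (P.rho p))) * m.t p * m.t (P.kap p) := rfl
  have eT : m.TT p = m.t p ^ 2 := rfl
  have eT' : m.TT (P.kap p) = m.t (P.kap p) ^ 2 := rfl
  refine (mul_le_mul_of_nonneg_left e1 (by linarith)).trans ?_
  rw [eE, eT, eT']
  have k1 : 2 * m.t p ≤ 1 + m.t p ^ 2 := by nlinarith [sq_nonneg (m.t p - 1)]
  have k2 : 2 * m.t (P.kap p) ≤ 1 + m.t (P.kap p) ^ 2 := by
    nlinarith [sq_nonneg (m.t (P.kap p) - 1)]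
  have k3 : (2 * m.t p) * (2 * m.t (P.kap p)) ≤
      (1 + m.t p ^ 2) * (1 + m.t (P.kap p) ^ 2) :=
    mul_le_mul k1 k2 (by linarith) (by positivity)
  have k4 : 0 ≤ Real.exp (-(m.y (P.rho p))) * m.t p * m.t (P.kap p) := by positivity
  have := mul_le_mul_of_nonneg_left k3 k4
  nlinarith [this]

theorem Zt3 {z : P.Z} (h : Zh z) : Zt (Zt (Zt z)) = z := by
  rcases z with p | p
  · rcases P.hex_or_oct h with h3 | h4
    · rw [Zt_inl_not (not_diag_of_hex h3), Zt_inl_not (not_diag_of_hex (P.hex_tau.2 h3)),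
        Zt_inl_not (not_diag_of_hex (P.hex_tau.2 (P.hex_tau.2 h3)))]
      exact congrArg Sum.inl h3
    · by_cases hd : P.Diag p
      · have n3 : ¬ P.Diag (P.tau (P.tau (P.tau p))) := by
          rw [P.diag_tau (P.oct_tau.2 (P.oct_tau.2 h4)), P.diag_tau_tau h4]
          exact not_not.2 hd
        rw [Zt_inl_diag hd, Zt_inr, Zt_inl_not n3]
        exact congrArg Sum.inl h4.1
      · have d1 : P.Diag (P.tau p) := (P.diag_tau h4).2 hd
        rw [Zt_inl_not hd, Zt_inl_diag d1, Zt_inr]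
        exact congrArg Sum.inl h4.1
  · have h4 := p.2.oct
    have n1 : ¬ P.Diag (P.tau p) := by
      rw [P.diag_tau h4]; exact not_not.2 p.2
    rw [Zt_inr, Zt_inl_not n1]
    have n2 : P.Diag (P.tau (P.tau (p : V))) := (P.diag_tau_tau h4).2 p.2
    rw [Zt_inl_diag n2]
    congr 1
    exact Subtype.ext h4.1

theorem LamZ_Zt (m : HypMetric P) {z : P.Z} (h : Zh z) :
    m.LamZ (Zt z) = (1 - 1 / m.muZ z) * (m.muZ (Zt z) - 1) := by
  have hz := gz m
  have : m.LamZ (Zt z) = m.LamZ (ZA z) := hz.LamZ_kap (ZA z)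
  rw [this, hz.tri z h]

/-- along an ultrafilter a product of nonnegative functions tends to zero only if a factor does -/
theorem small_or {ι : Type*} (F : Ultrafilter ι) {f g : ι → ℝ} (hf : ∀ i, 0 ≤ f i)
    (hg : ∀ i, 0 ≤ g i) (h : Tendsto (fun i => f i * g i) F (𝓝 0)) :
    Tendsto f F (𝓝 0) ∨ Tendsto g F (𝓝 0) := by
  by_contra hc
  push Not at hc
  obtain ⟨h1, h2⟩ := hc
  have key : ∀ k : ι → ℝ, (∀ i, 0 ≤ k i) → ¬ Tendsto k F (𝓝 0) →
      ∃ δ > 0, ∀ᶠ i in (F : Filter ι), δ ≤ k i := by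
    intro k hk hn
    rw [Metric.tendsto_nhds] at hn
    push Not at hn
    obtain ⟨δ, hδ, hn⟩ := hn
    refine ⟨δ, hδ, ?_⟩
    filter_upwards [hn] with i hi
    rw [Real.dist_eq, sub_zero, abs_of_nonneg (hk i)] at hi
    exact hi
  obtain ⟨δ, hδ, e1⟩ := key f hf h1
  obtain ⟨δ', hδ', e2⟩ := key g hg h2
  have e3 : ∀ᶠ i in (F : Filter ι), f i * g i < δ * δ' := by
    have := (tendsto_order.1 h).2 (δ * δ') (mul_pos hδ hδ')
    exact this
  obtain ⟨i, hi1, hi2, hi3⟩ := (e1.and (e2.and e3)).exists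
  have := mul_le_mul hi1 hi2 hδ'.le (hf i)
  linarith

/-- a function between zero and `C` times a small function is small -/
theorem small_le {ι : Type*} (F : Ultrafilter ι) {f g : ι → ℝ} (C : ℝ) (hf : ∀ i, 0 ≤ f i)
    (hfg : ∀ i, f i ≤ C * g i) (h : Tendsto g F (𝓝 0)) : Tendsto f F (𝓝 0) := by
  have h2 : Tendsto (fun i => C * g i) F (𝓝 0) := by simpa using h.const_mul C
  exact tendsto_of_tendsto_of_tendsto_of_le_of_le tendsto_const_nhds h2 hf hfg

/-- if one edge of an ideal triangle becomes long, so does a second one -/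
theorem tri_small {ι : Type*} (F : Ultrafilter ι) (m : ι → HypMetric P) (M : ℝ)
    (hM : ∀ i z, (m i).muZ z ≤ M) {z : P.Z} (h : Zh z)
    (hs : Tendsto (fun i => (m i).LamZ z) F (𝓝 0)) :
    Tendsto (fun i => (m i).LamZ (Zt z)) F (𝓝 0) ∨
      Tendsto (fun i => (m i).LamZ (Zt (Zt z))) F (𝓝 0) := by
  have h1 : Zh (Zt z) := (Zh_Zt z).2 h
  have h2 : Zh (Zt (Zt z)) := (Zh_Zt _).2 h1
  have g0 : ∀ i, 1 < (m i).muZ z := fun i => (gz (m i)).muZ_gt z h
  have g1 : ∀ i, 1 < (m i).muZ (Zt z) := fun i => (gz (m i)).muZ_gt _ h1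
  have g2 : ∀ i, 1 < (m i).muZ (Zt (Zt z)) := fun i => (gz (m i)).muZ_gt _ h2
  have q : ∀ x : ℝ, 1 < x → 0 < 1 - 1 / x ∧ 1 - 1 / x ≤ x - 1 ∧ 1 - 1 / x < 1 := by
    intro x hx
    have hx0 : 0 < x := by linarith
    refine ⟨?_, ?_, ?_⟩
    · rw [sub_pos, div_lt_one hx0]; exact hx
    · have : 0 ≤ (x - 1) ^ 2 / x := by positivity
      have e : (x - 1) ^ 2 / x = (x - 1) - (1 - 1 / x) := by field_simp
      linarith
    · have : 0 < 1 / x := by positivity
      linarith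
  have e0 : ∀ i, (m i).LamZ z = (1 - 1 / (m i).muZ (Zt (Zt z))) * ((m i).muZ z - 1) := by
    intro i
    have := LamZ_Zt (m i) h2
    rw [Zt3 h] at this
    exact this
  have hs' : Tendsto (fun i => (1 - 1 / (m i).muZ (Zt (Zt z))) * ((m i).muZ z - 1)) F (𝓝 0) := by
    refine hs.congr fun i => e0 i
  rcases small_or F (fun i => (q _ (g2 i)).1.le) (fun i => by linarith [g0 i]) hs' with k | k
  · right
    refine small_le F M (fun i => ((gz (m i)).LamZ_pos _).le) (fun i => ?_) k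
    rw [LamZ_Zt (m i) h1]
    have a1 := (q _ (g1 i)).1
    have a2 := (q _ (g1 i)).2.2
    have a3 := (q _ (g2 i)).1
    have hx0 : 0 < (m i).muZ (Zt (Zt z)) := by linarith [g2 i]
    have e : (m i).muZ (Zt (Zt z)) - 1 =
        (m i).muZ (Zt (Zt z)) * (1 - 1 / (m i).muZ (Zt (Zt z))) := by field_simp
    rw [e]
    have b1 : (m i).muZ (Zt (Zt z)) * (1 - 1 / (m i).muZ (Zt (Zt z))) ≤
        M * (1 - 1 / (m i).muZ (Zt (Zt z))) := mul_le_mul_of_nonneg_right (hM i _) a3.le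
    have b2 : 0 ≤ (m i).muZ (Zt (Zt z)) * (1 - 1 / (m i).muZ (Zt (Zt z))) := by positivity
    calc (1 - 1 / (m i).muZ (Zt z)) * ((m i).muZ (Zt (Zt z)) * (1 - 1 / (m i).muZ (Zt (Zt z))))
        ≤ 1 * ((m i).muZ (Zt (Zt z)) * (1 - 1 / (m i).muZ (Zt (Zt z)))) :=
          mul_le_mul_of_nonneg_right a2.le b2
      _ ≤ M * (1 - 1 / (m i).muZ (Zt (Zt z))) := by rw [one_mul]; exact b1
  · left
    refine small_le F M (fun i => ((gz (m i)).LamZ_pos _).le) (fun i => ?_) k
    rw [LamZ_Zt (m i) h]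
    have a1 := (q _ (g0 i)).2.1
    have a2 := (q _ (g0 i)).1
    have a3 := hM i (Zt z)
    have a4 := g1 i
    have a5 := g0 i
    calc (1 - 1 / (m i).muZ z) * ((m i).muZ (Zt z) - 1)
        ≤ ((m i).muZ z - 1) * M := mul_le_mul a1 (by linarith) (by linarith) (by linarith)
      _ = M * ((m i).muZ z - 1) := by ring

end Run7.h688.MC
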