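import Pool.Agent.Run7.h688.MC.PROP1
import Pool.Agent.Run7.h467.MC.DOM

/-!
# Piece PROP, second part: uniform lower bounds for `Λ`
-/

set_option autoImplicit false
set_option linter.unusedSectionVars false

namespace Run7.h688.MC

open Real Run7.h568.MC Run7.h568.MC.Pattern Filter Topology

universe u

variable {V : Type u} [Fintype V] {P : Pattern V}

/-- the length of `Σ a α + Σ b β` is at most `K` -/
def Short (a b : V → ℝ) (K : ℝ) (m : HypMetric P) : Prop :=
  Om (0, a) m.lin + ∑ p, b p * m.y p ≤ K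

theorem muZ_ge (m : HypMetric P) (z : P.Z) : 1 ≤ m.muZ z := Run7.h568.MC.muZ_ge (gz m) z

theorem term_a (m : HypMetric P) {a : V → ℝ} (ha : ∀ p, 0 < a p) (z : P.Z) :
    0 ≤ (if Zh z then a (Zb z) * Real.log (m.muZ z) else 0) := by
  split_ifs with h
  · exact mul_nonneg (ha _).le (Real.log_nonneg (muZ_ge m z))
  · exact le_refl _

theorem term_b (m : HypMetric P) {b : V → ℝ} (hb0 : ∀ p, 0 ≤ b p) (p : V) :
    0 ≤ b p * m.y p := mul_nonneg (hb0 p) (m.y_pos p).le

theorem short_b {a b : V → ℝ} {K : ℝ} {m : HypMetric P} (ha : ∀ p, 0 < a p)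
    (haA : ∀ p, a (P.A p) = a p) (h : Short a b K m) :
    ∑ p, b p * m.y p ≤ K := by
  unfold Short at h
  rw [La_eq m haA] at h
  have := Finset.sum_nonneg (s := Finset.univ) fun z _ => term_a m ha z
  linarith

theorem short_y {a b : V → ℝ} {K : ℝ} {m : HypMetric P} (ha : ∀ p, 0 < a p)
    (haA : ∀ p, a (P.A p) = a p) (hb0 : ∀ p, 0 ≤ b p) (h : Short a b K m) (p : V) :
    b p * m.y p ≤ K :=
  (Finset.single_le_sum (f := fun p => b p * m.y p) (fun q _ => term_b m hb0 q)
    (Finset.mem_univ p)).trans (short_b ha haA h)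

theorem short_mu {a b : V → ℝ} {K : ℝ} {m : HypMetric P} (ha : ∀ p, 0 < a p)
    (haA : ∀ p, a (P.A p) = a p) (hb0 : ∀ p, 0 ≤ b p) (h : Short a b K m) (z : P.Z) :
    m.muZ z ≤ 1 + ∑ z : P.Z, Real.exp (K / a (Zb z)) := by
  have hs : 0 ≤ ∑ z : P.Z, Real.exp (K / a (Zb z)) :=
    Finset.sum_nonneg fun z _ => (Real.exp_pos _).le
  by_cases hz : Zh z
  · have h1 : (if Zh z then a (Zb z) * Real.log (m.muZ z) else 0) ≤
        ∑ z : P.Z, (if Zh z then a (Zb z) * Real.log (m.muZ z) else 0) :=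
      Finset.single_le_sum (f := fun z : P.Z => if Zh z then a (Zb z) * Real.log (m.muZ z) else 0)
        (fun z _ => term_a m ha z) (Finset.mem_univ z)
    rw [if_pos hz] at h1
    have h2 : ∑ z : P.Z, (if Zh z then a (Zb z) * Real.log (m.muZ z) else 0) ≤ K := by
      unfold Short at h
      rw [La_eq m haA] at h
      have := Finset.sum_nonneg (s := Finset.univ) fun p _ => term_b m hb0 p
      linarith
    have h3 : Real.log (m.muZ z) ≤ K / a (Zb z) := by
      rw [le_div_iff₀ (ha _)]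
      linarith
    have h4 : m.muZ z ≤ Real.exp (K / a (Zb z)) := by
      have h0 : 0 < m.muZ z := by linarith [muZ_ge m z]
      rw [← Real.exp_log h0]
      exact Real.exp_le_exp.2 h3
    have h5 : Real.exp (K / a (Zb z)) ≤ ∑ z : P.Z, Real.exp (K / a (Zb z)) :=
      Finset.single_le_sum (f := fun z : P.Z => Real.exp (K / a (Zb z)))
        (fun z _ => (Real.exp_pos _).le) (Finset.mem_univ z)
    linarith
  · rw [(gz m).muZ_quad z hz]
    linarith

/-- where the weight of `β` is nonzero, `R` and `S` are bounded below -/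
theorem short_RS {a b : V → ℝ} {K : ℝ} {m : HypMetric P} (ha : ∀ p, 0 < a p)
    (haA : ∀ p, a (P.A p) = a p) (hb : b ∈ Inv P) (hb0 : ∀ p, 0 ≤ b p) (h : Short a b K m)
    {p : V} (hp : b p ≠ 0) :
    Real.exp (-(K / b p)) ≤ m.RR p - 1 ∧ Real.exp (-(K / b p)) ≤ m.SS p := by
  obtain ⟨-, e1, e2⟩ := box (GA P) m b hb
  have hg := gf m
  have hk := short_b ha haA h
  have hR : ∀ p, 0 ≤ b p * (Real.log (m.RR p) - Real.log (m.RR p - 1)) := by
    intro p
    refine mul_nonneg (hb0 p) ?_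
    have h1 := hg.RR_gt p
    have := Real.log_le_log (by linarith) (show m.RR p - 1 ≤ m.RR p by linarith)
    linarith
  have hS : ∀ p, 0 ≤ b p * (Real.log (m.SS p + 1) - Real.log (m.SS p)) := by
    intro p
    refine mul_nonneg (hb0 p) ?_
    have h1 := hg.SS_pos p
    have := Real.log_le_log h1 (show m.SS p ≤ m.SS p + 1 by linarith)
    linarith
  have e3 : ∑ p, b p * m.y p = ∑ p, b p * (Real.log (m.RR p) - Real.log (m.RR p - 1)) +
      ∑ p, b p * (Real.log (m.SS p + 1) - Real.log (m.SS p)) := by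
    have e4 : ∑ p, b p * (m.y p + (m.w p - m.lZ (Sum.inl p))) +
        ∑ p, b p * (m.y p - (m.w p - m.lZ (Sum.inl p))) = 2 * ∑ p, b p * m.y p := by
      rw [← Finset.sum_add_distrib, Finset.mul_sum]
      refine Finset.sum_congr rfl fun p _ => ?_
      ring
    linarith
  have s1 := Finset.sum_nonneg (s := Finset.univ) fun p _ => hR p
  have s2 := Finset.sum_nonneg (s := Finset.univ) fun p _ => hS p
  have t1 : b p * (Real.log (m.RR p) - Real.log (m.RR p - 1)) ≤
      ∑ p, b p * (Real.log (m.RR p) - Real.log (m.RR p - 1)) :=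
    Finset.single_le_sum (f := fun p => b p * (Real.log (m.RR p) - Real.log (m.RR p - 1)))
      (fun p _ => hR p) (Finset.mem_univ p)
  have t2 : b p * (Real.log (m.SS p + 1) - Real.log (m.SS p)) ≤
      ∑ p, b p * (Real.log (m.SS p + 1) - Real.log (m.SS p)) :=
    Finset.single_le_sum (f := fun p => b p * (Real.log (m.SS p + 1) - Real.log (m.SS p)))
      (fun p _ => hS p) (Finset.mem_univ p)
  have hbp : 0 < b p := lt_of_le_of_ne (hb0 p) (Ne.symm hp)
  have g1 := hg.RR_gt p
  have g2 := hg.SS_pos p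
  constructor
  · have u1 : Real.log (m.RR p) - Real.log (m.RR p - 1) ≤ K / b p := by
      rw [le_div_iff₀ hbp]; linarith
    have u2 : 0 ≤ Real.log (m.RR p) := Real.log_nonneg g1.le
    rw [← Real.exp_log (show 0 < m.RR p - 1 by linarith)]
    exact Real.exp_le_exp.2 (by linarith)
  · have u1 : Real.log (m.SS p + 1) - Real.log (m.SS p) ≤ K / b p := by
      rw [le_div_iff₀ hbp]; linarith
    have u2 : 0 ≤ Real.log (m.SS p + 1) := Real.log_nonneg (by linarith)
    rw [← Real.exp_log g2]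
    exact Real.exp_le_exp.2 (by linarith)

theorem Lam_kap' (m : HypMetric P) (p : V) : m.Lam (P.kap p) = m.Lam p := by
  have := (gz m).LamZ_kap (Sum.inl p)
  exact this

/-- if `Λ` tends to zero at a side of a face, it does so at a second side -/
theorem second_side (F : Ultrafilter ℕ) (m : ℕ → HypMetric P) (M : ℝ)
    (hM : ∀ i z, (m i).muZ z ≤ M) (q : V)
    (hs : Tendsto (fun i => (m i).Lam q) F (𝓝 0)) :
    ∃ n : ℕ, P.tau^[n] q ≠ q ∧ Tendsto (fun i => (m i).Lam (P.tau^[n] q)) F (𝓝 0) := by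
  rcases P.faces q with h | h | h
  · refine ⟨1, P.tau_ne q, ?_⟩
    refine hs.congr fun i => ?_
    have h1 := (gf (m i)).Lam_quad q h
    have h2 := Lam_kap' (m i) (P.A q)
    rw [P.kap_A] at h2
    change (m i).Lam q = (m i).Lam (P.tau q)
    rw [h2, h1]
  · have hq : Zh (Sum.inl q : P.Z) := not_quad_of_hex P h
    rcases tri_small F m M hM hq hs with k | k
    · rw [Zt_inl_not (not_diag_of_hex h)] at k
      exact ⟨1, P.tau_ne q, k⟩
    · rw [Zt_inl_not (not_diag_of_hex h), Zt_inl_not (not_diag_of_hex (P.hex_tau.2 h))] at k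
      exact ⟨2, not_quad_of_hex P h, k⟩
  · have hq : Zh (Sum.inl q : P.Z) := not_quad_of_oct P h
    have n1 : P.tau q ≠ q := P.tau_ne q
    have n2 : P.tau (P.tau q) ≠ q := h.2
    have n3 : P.tau (P.tau (P.tau q)) ≠ q := by
      intro e
      have := h.1
      rw [e] at this
      exact P.tau_ne q this
    have kapZ : ∀ z : P.Z, Tendsto (fun i => (m i).LamZ (Zk z)) F (𝓝 0) →
        Tendsto (fun i => (m i).LamZ z) F (𝓝 0) := fun z hz =>
      hz.congr fun i => (gz (m i)).LamZ_kap z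
    by_cases hd : P.Diag q
    · have d1 : ¬ P.Diag (P.tau q) := by rw [P.diag_tau h]; exact not_not.2 hd
      have d2 : P.Diag (P.tau (P.tau q)) := (P.diag_tau_tau h).2 hd
      rcases tri_small F m M hM hq hs with k | k
      · rw [Zt_inl_diag hd] at k
        have k' := kapZ (Sum.inr ⟨q, hd⟩) (by rw [Zk_inr]; exact k)
        rcases tri_small F m M hM (Zh_inr _) k' with j | j
        · rw [Zt_inr] at j
          exact ⟨1, n1, j⟩
        · rw [Zt_inr, Zt_inl_not d1] at j
          exact ⟨2, n2, j⟩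
      · rw [Zt_inl_diag hd, Zt_inr] at k
        exact ⟨3, n3, k⟩
    · have d1 : P.Diag (P.tau q) := (P.diag_tau h).2 hd
      have d2 : ¬ P.Diag (P.tau (P.tau q)) := by rw [P.diag_tau_tau h]; exact hd
      rcases tri_small F m M hM hq hs with k | k
      · rw [Zt_inl_not hd] at k
        exact ⟨1, n1, k⟩
      · rw [Zt_inl_not hd, Zt_inl_diag d1] at k
        have k' := kapZ (Sum.inr ⟨P.tau q, d1⟩) (by rw [Zk_inr]; exact k)
        rcases tri_small F m M hM (Zh_inr _) k' with j | j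
        · rw [Zt_inr] at j
          exact ⟨2, n2, j⟩
        · rw [Zt_inr, Zt_inl_not d2] at j
          exact ⟨3, n3, j⟩

/-- the uniform lower bound for `Λ` -/
theorem short_Lam {a b : V → ℝ} (K : ℝ) (ha : ∀ p, 0 < a p)
    (haA : ∀ p, a (P.A p) = a p) (hb : b ∈ Inv P) (hb0 : ∀ p, 0 ≤ b p) (hF : Fills P b) :
    ∃ ε : ℝ, 0 < ε ∧ ∀ m : HypMetric P, Short a b K m → ∀ p, ε ≤ m.Lam p := by
  by_contra hc
  push Not at hc
  have h1 : ∀ n : ℕ, ∃ m : HypMetric P, Short a b K m ∧ ∃ p, m.Lam p < 1 / ((n : ℝ) + 1) :=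
    fun n => hc _ (by positivity)
  choose m hm q hq using h1
  have hpos : ∀ i p, 0 ≤ (m i).Lam p := fun i p => ((gz (m i)).LamZ_pos (Sum.inl p)).le
  have hM : ∀ i z, (m i).muZ z ≤ 1 + ∑ z : P.Z, Real.exp (K / a (Zb z)) :=
    fun i z => short_mu ha haA hb0 (hm i) z
  obtain ⟨F, hFF⟩ : ∃ F : Ultrafilter ℕ, (F : Filter ℕ) ≤ atTop :=
    ⟨hyperfilter ℕ, Nat.hyperfilter_le_atTop⟩
  obtain ⟨q0, hq0⟩ : ∃ q0 : V, ∀ᶠ i in (F : Filter ℕ), q i = q0 := by
    by_contra hn
    push Not at hn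
    have h2 : ∀ᶠ i in (F : Filter ℕ), ∀ v : V, q i ≠ v := by
      rw [eventually_all]
      exact hn
    obtain ⟨i, hi⟩ := h2.exists
    exact hi (q i) rfl
  have t0 : Tendsto (fun i => (m i).Lam q0) F (𝓝 0) := by
    have h2 : Tendsto (fun n : ℕ => 1 / ((n : ℝ) + 1)) F (𝓝 0) :=
      tendsto_one_div_add_atTop_nhds_zero_nat.mono_left hFF
    refine tendsto_of_tendsto_of_tendsto_of_le_of_le' tendsto_const_nhds h2
      (Eventually.of_forall fun i => hpos i q0) ?_
    filter_upwards [hq0] with i hi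
    rw [← hi]
    exact (hq i).le
  obtain ⟨p, hp, hp2⟩ := hF {p | Tendsto (fun i => (m i).Lam p) F (𝓝 0)} ⟨q0, t0⟩ (by
    intro p hp
    rw [Set.mem_ofPred_eq] at hp
    refine ⟨?_, ?_⟩
    · by_contra hbp
      have hbp' : 0 < b p := lt_of_le_of_ne (hb0 p) (Ne.symm hbp)
      have h3 : ∀ i, 4 * Real.exp (-(K / b p)) ≤ (m i).Lam p := by
        intro i
        refine le_trans ?_ (Lam_ge (m i) p)
        have h4 := short_y ha haA hb0 (hm i) (P.rho p)
        rw [hb.1] at h4
        have h5 : (m i).y (P.rho p) ≤ K / b p := by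
          rw [le_div_iff₀ hbp']; linarith
        have := Real.exp_le_exp.2 (neg_le_neg h5)
        linarith
      have h6 : (4 * Real.exp (-(K / b p)) : ℝ) ≤ 0 :=
        ge_of_tendsto' hp h3
      have := Real.exp_pos (-(K / b p))
      linarith
    · rw [Set.mem_ofPred_eq]
      exact hp.congr fun i => (Lam_kap' (m i) p).symm)
  obtain ⟨n, hn1, hn2⟩ := second_side F m _ hM p hp
  exact hn1 (hp2 n hn2)

end Run7.h688.MC
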